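import Pool.Agent.Work.MP_a23c49_bd.Glue

/-!
# Reduction of `MG` to configurations with boundedly many points on a line
-/

namespace Pool.Agent.Results.MP_a23c49_lc.BoundedLines

open Pool.Agent.Work.MP_a23c49_lc Pool.Agent.Work.MP_a23c49_bd Pool.Agent.Work.TMLib

/-- For every real `0 < ε ≤ 1` and every natural number `K ≥ 2 / ε` there is a function `R`, computable by a
Turing machine in polynomial time, which maps a list `S` of distinct rational points to a subset of `S` in general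
position and to a list of subsets of `S` with at most `K` points on every line, such that one of them is good: either
`MG(S) ≤ 5 n ^ ((1 - ε) / 2) |G|` for the set `G` in general position, or `MG(S) ≤ 4 n ^ (2 ε) MG(Y)` for one of the
subconfigurations `Y`, where `n = |S|`. -/
theorem result : ∀ (ε : ℝ) (K : ℕ), 0 < ε → ε ≤ 1 → 2 / ε ≤ K →
    ∃ R : List (ℚ × ℚ) → List (ℚ × ℚ) × List (List (ℚ × ℚ)), PolyTime encPoints encOut R ∧
      ∀ S : List (ℚ × ℚ), S.Nodup →
        ((R S).1.Nodup ∧ (R S).1.toFinset ⊆ S.toFinset ∧ GenPos (R S).1.toFinset) ∧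
        (∀ Y ∈ (R S).2, Y.Nodup ∧ Y.toFinset ⊆ S.toFinset ∧
          ∀ A : Finset (ℚ × ℚ), A ⊆ Y.toFinset → Collinear ℝ (pt '' (A : Set (ℚ × ℚ))) → A.card ≤ K) ∧
        (S ≠ [] → (MG S.toFinset : ℝ) ≤ 5 * (S.length : ℝ) ^ ((1 - ε) / 2) * (R S).1.length ∨
          ∃ Y ∈ (R S).2, (MG S.toFinset : ℝ) ≤ 4 * (S.length : ℝ) ^ (2 * ε) * MG Y.toFinset) :=
  g_FIN

end Pool.Agent.Results.MP_a23c49_lc.BoundedLines
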