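import Pool.Agent.Work.MP_a23c49_gr.Glue

/-!
# `MG` for subsets of a grid
-/

namespace Pool.Agent.Results.MP_a23c49_lc.GridSubsets

open Pool.Agent.Work.MP_a23c49_lc Pool.Agent.Work.MP_a23c49_gr Pool.Agent.Work.TMLib

/-- There is a function `A`, computable by a Turing machine in polynomial time, which maps every list `S` of distinct
rational points to a subset of `S` in general position, such that `MG(S) |S| ≤ 4 N ^ 2 |A(S)|` whenever all points
of `S` have coordinates in `{0, .., N - 1}`. -/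
theorem result : ∃ A : List (ℚ × ℚ) → List (ℚ × ℚ), PolyTime encPoints encPoints A ∧
    (∀ S : List (ℚ × ℚ), S.Nodup → (A S).Nodup ∧ (A S).toFinset ⊆ S.toFinset ∧ GenPos (A S).toFinset) ∧
    ∀ (N : ℕ) (S : List (ℚ × ℚ)), S.Nodup → (∀ s ∈ S, ∃ x y : ℕ, x < N ∧ y < N ∧ s = ((x : ℚ), (y : ℚ))) →
      MG S.toFinset * S.length ≤ 4 * N ^ 2 * (A S).length :=
  g_FIN

end Pool.Agent.Results.MP_a23c49_lc.GridSubsets
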