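import Pool.Agent.Work.MP_a23c49_lc.Main

/-!
# A randomized polynomial-time approximation algorithm for `MG` with ratio `O(√(n / log n))`
-/

namespace Pool.Agent.Results.MP_a23c49_lc.RatioSqrtLog

open Pool.Agent.Work.MP_a23c49_lc Pool.Agent.Work.TMLib

/-- There are a function `A` (of a list of distinct rational points and a string of random bits),
computable in polynomial time by a Turing machine on the binary encoding of its input, a polynomial
`q` and a constant `C` such that `A` always outputs a subset of its input in general position and,
for every configuration of `n ≥ 2` points, for at least `9/10` of the strings of `q n` random bits,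
the output has at least `MG(S) / (C √(n / log n))` points. -/
theorem result : ∃ (A : List (ℚ × ℚ) × List Bool → List (ℚ × ℚ)) (q : Polynomial ℕ) (C : ℝ),
    PolyTime encInput encPoints A ∧
    (∀ (S : List (ℚ × ℚ)) (ω : List Bool), S.Nodup → (A (S, ω)).Nodup ∧
      (A (S, ω)).toFinset ⊆ S.toFinset ∧ GenPos (A (S, ω)).toFinset) ∧
    ∀ S : List (ℚ × ℚ), S.Nodup → 2 ≤ S.length →
      9 / 10 * (2 : ℝ) ^ q.eval S.length ≤
        (Finset.univ.filter fun ω : Fin (q.eval S.length) → Bool =>
          (MG S.toFinset : ℝ) ≤ C * √(S.length / Real.log S.length) *
            (A (S, List.ofFn ω)).length).card :=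
  main

end Pool.Agent.Results.MP_a23c49_lc.RatioSqrtLog
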