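import Pool.Agent.Work.MP_a23c49_sub.Glue

/-!
# A trade-off between running time and approximation ratio for `MG`
-/

namespace Pool.Agent.Results.MP_a23c49_lc.TimeTradeoff

open Pool.Agent.Work.MP_a23c49_lc Pool.Agent.Work.MP_a23c49_sub Pool.Agent.Work.TMLib

/-- There are a function `A` (of a list of distinct rational points and a number `t`), computable by
a Turing machine in time polynomial in the length of the encoding of the points (binary) and of `t`
(unary), and a constant `C` such that `A` always outputs a subset of its input in general position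
and, for every configuration of `n ≥ 3` points and every real `D ≥ 1` with
`t ≥ exp (C D ^ 50 (log n) ^ 3)`, the output has at least `MG(S) / max (1, √n / D)` points. -/
theorem result : ∃ (A : List (ℚ × ℚ) × ℕ → List (ℚ × ℚ)) (C : ℝ),
    PolyTime encUnary encPoints A ∧
    (∀ (S : List (ℚ × ℚ)) (t : ℕ), S.Nodup → (A (S, t)).Nodup ∧
      (A (S, t)).toFinset ⊆ S.toFinset ∧ GenPos (A (S, t)).toFinset) ∧
    ∀ (S : List (ℚ × ℚ)) (t : ℕ) (D : ℝ), S.Nodup → 3 ≤ S.length → 1 ≤ D →
      Real.exp (C * D ^ 50 * Real.log S.length ^ 3) ≤ t →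
      (MG S.toFinset : ℝ) ≤ max 1 (√S.length / D) * (A (S, t)).length :=
  main2

end Pool.Agent.Results.MP_a23c49_lc.TimeTradeoff
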